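import Mathlib
import Pool.Agent.Lib.MP_0139c6_co.Main

/-!
Ehrhart's conjectured lattice point bound `G(K) ≤ V(K) + F(K)/2 + ∑_{i ≤ d-2} V_i(Q)`
holds in every dimension.
-/

open MeasureTheory Pointwise

namespace Pool.Agent.Results.MP_0139c6_co.Ehrhart

/-- `κ_j`, the volume of the `j`-dimensional Euclidean unit ball. -/
noncomputable def kappa (j : ℕ) : ℝ :=
  (volume (Metric.closedBall (0 : EuclideanSpace ℝ (Fin j)) 1)).toReal

/-- `v 0, …, v d` satisfy the Steiner formula for `K`. -/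
def IsSteiner {d : ℕ} (K : Set (EuclideanSpace ℝ (Fin d))) (v : ℕ → ℝ) : Prop :=
  ∀ ρ : ℝ, 0 ≤ ρ →
    (volume (K + ρ • Metric.closedBall (0 : EuclideanSpace ℝ (Fin d)) 1)).toReal =
      ∑ i ∈ Finset.range (d + 1), kappa (d - i) * ρ ^ (d - i) * v i

/-- the intrinsic volumes `V_i(K)`: the coefficients in the Steiner formula of `K`. -/
noncomputable def intrinsicVolume {d : ℕ} (K : Set (EuclideanSpace ℝ (Fin d))) (i : ℕ) : ℝ :=
  Classical.epsilon (IsSteiner K) i

/-- the surface area `F(K) = 2 V_{d-1}(K)`. -/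
noncomputable def surfaceArea {d : ℕ} (K : Set (EuclideanSpace ℝ (Fin d))) : ℝ :=
  2 * intrinsicVolume K (d - 1)

/-- `G(K)`, the number of integer points of `K`. -/
noncomputable def latticeCount {d : ℕ} (K : Set (EuclideanSpace ℝ (Fin d))) : ℕ :=
  Set.ncard {x ∈ K | ∀ j, ∃ z : ℤ, x j = z}

/-- `Q(K)`, the smallest lattice box containing `K`. -/
def latticeBox {d : ℕ} (K : Set (EuclideanSpace ℝ (Fin d))) : Set (EuclideanSpace ℝ (Fin d)) :=
  {x | ∀ j, (⌊sInf ((fun y : EuclideanSpace ℝ (Fin d) => y j) '' K)⌋ : ℝ) ≤ x j ∧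
    x j ≤ (⌈sSup ((fun y : EuclideanSpace ℝ (Fin d) => y j) '' K)⌉ : ℝ)}

open Pool.Agent.Lib.MP_0139c6_co Polynomial

theorem add_ball_eq {d : ℕ} {K : Set (EuclideanSpace ℝ (Fin d))} (hK : IsCompact K) {ρ : ℝ}
    (hρ : 0 ≤ ρ) : K + ρ • Metric.closedBall (0 : EuclideanSpace ℝ (Fin d)) 1 =
      Metric.cthickening ρ K := by
  rw [smul_closedBall _ _ zero_le_one, smul_zero, mul_one, Real.norm_eq_abs, abs_of_nonneg hρ,
    hK.add_closedBall_zero hρ]

theorem isSteiner_intrinsicVolume {d : ℕ} {K : Set (EuclideanSpace ℝ (Fin d))} (hK : Body K) :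
    IsSteiner K (intrinsicVolume K) := by
  obtain ⟨P, hd, hP⟩ :=
    Pool.Agent.Shared.Steiner.exists_steiner_poly hK.compact hK.convex hK.nonempty
  refine Classical.epsilon_spec (p := IsSteiner K)
    ⟨fun i => P.coeff (d - i) / kappa (d - i), fun ρ hρ => ?_⟩
  rw [add_ball_eq hK.compact hρ, ← measureReal_def, hP ρ hρ,
    eval_eq_sum_range' (Nat.lt_succ_of_le hd), ← Finset.sum_range_reflect]
  refine Finset.sum_congr rfl fun i _ => ?_
  have h := (kap_pos (d - i)).ne'
  have e : kappa (d - i) = kap (d - i) := rfl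
  simp only [e, Nat.succ_sub_one]
  field_simp

theorem steiner_poly {d : ℕ} {K : Set (EuclideanSpace ℝ (Fin d))} (hK : IsCompact K)
    {v : ℕ → ℝ} (hv : IsSteiner K v) (t : ℝ) (ht : 0 ≤ t) :
    volume.real (Metric.cthickening t K) =
      (∑ j ∈ Finset.range (d + 1), monomial j (kap j * v (d - j))).eval t := by
  rw [← add_ball_eq hK ht, measureReal_def, hv t ht, eval_finsetSum, ← Finset.sum_range_reflect]
  refine Finset.sum_congr rfl fun j hj => ?_
  have hj' : j ≤ d := Nat.lt_succ_iff.1 (Finset.mem_range.1 hj)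
  have e : kappa j = kap j := rfl
  rw [Nat.add_sub_cancel, Nat.sub_sub_self hj', eval_monomial, e]
  ring

theorem surfaceArea_eq {d : ℕ} (hd : 1 ≤ d) {K : Set (EuclideanSpace ℝ (Fin d))} (hK : Body K) :
    surfaceArea K = surf K := by
  rw [(surf_eq_coeff (steiner_poly hK.compact (isSteiner_intrinsicVolume hK))).2, finsetSum_coeff]
  simp only [coeff_monomial, Finset.sum_ite_eq', Finset.mem_range, kap_one]
  rw [if_pos (by omega), surfaceArea]

theorem intrinsicVolume_box {d : ℕ} {a b : Fin d → ℝ} (h : ∀ i, a i ≤ b i) {j : ℕ} (hj : j ≤ d) :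
    intrinsicVolume (box a b) (d - j) = (boxPoly (b - a)).coeff j := by
  have h1 := steiner_poly (body_box h).compact (isSteiner_intrinsicVolume (body_box h))
  have h2 : (∑ j ∈ Finset.range (d + 1), monomial j (kap j * intrinsicVolume (box a b) (d - j)))
      = ∑ j ∈ Finset.range (d + 1), monomial j (kap j * (boxPoly (b - a)).coeff j) := by
    refine eq_of_infinite_eval_eq _ _ ((Set.Ici_infinite (0 : ℝ)).mono fun t ht => ?_)
    show eval t _ = eval t _
    rw [← h1 t ht, steiner_box d a b h t ht, eval_finsetSum]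
    refine Finset.sum_congr rfl fun j _ => ?_
    rw [eval_monomial]; ring
  have h3 := congrArg (fun p : ℝ[X] => p.coeff j) h2
  simp only [finsetSum_coeff, coeff_monomial, Finset.sum_ite_eq', Finset.mem_range,
    Nat.lt_succ_of_le hj, if_true] at h3
  exact mul_left_cancel₀ (kap_pos j).ne' h3

theorem sum_box {d : ℕ} {a b : Fin (d + 1) → ℝ} (h : ∀ i, a i ≤ b i) :
    ∑ i ∈ Finset.range d, intrinsicVolume (box a b) i = rest (b - a) := by
  rw [rest, eval_eq_sum_range' (Nat.lt_succ_of_le (boxPoly_natDegree _)),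
    Finset.sum_range_succ', Finset.sum_range_succ', ← Finset.sum_range_reflect]
  simp only [one_pow, mul_one, zero_add]
  have : ∑ j ∈ Finset.range d, intrinsicVolume (box a b) (d - 1 - j) =
      ∑ j ∈ Finset.range d, (boxPoly (b - a)).coeff (j + 1 + 1) := by
    refine Finset.sum_congr rfl fun j hj => ?_
    have hj' : j < d := Finset.mem_range.1 hj
    rw [← intrinsicVolume_box h (by omega)]
    congr 1
    omega
  rw [this]
  ring

theorem latticeCount_eq {d : ℕ} (K : Set (EuclideanSpace ℝ (Fin d))) :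
    latticeCount K = (latt K).ncard := by
  have hinj : Function.Injective
      fun z : Fin d → ℤ => (WithLp.toLp 2 (fun i => (z i : ℝ)) : EuclideanSpace ℝ (Fin d)) := by
    intro z w hzw
    funext i
    have := congrArg (fun x : EuclideanSpace ℝ (Fin d) => x i) hzw
    simpa using this
  rw [latticeCount, ← Set.ncard_image_of_injective _ hinj]
  congr 1
  ext x
  constructor
  · rintro ⟨hx, hz⟩
    choose z hz using hz
    have e : (WithLp.toLp 2 (fun i => (z i : ℝ)) : EuclideanSpace ℝ (Fin d)) = x := by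
      ext i; simp [hz]
    exact ⟨z, by rw [latt, Set.mem_ofPred_eq, e]; exact hx, e⟩
  · rintro ⟨z, hz, rfl⟩
    exact ⟨hz, fun j => ⟨z j, rfl⟩⟩

theorem result : ∀ d : ℕ, 1 ≤ d → ∀ K : Set (EuclideanSpace ℝ (Fin d)),
    K.Nonempty → IsCompact K → Convex ℝ K →
    (latticeCount K : ℝ) ≤ (volume K).toReal + 1 / 2 * surfaceArea K +
      ∑ i ∈ Finset.range (d - 1), intrinsicVolume (latticeBox K) i := by
  intro d hd K hne hK hc
  obtain ⟨n, rfl⟩ : ∃ n, d = n + 1 := ⟨d - 1, by omega⟩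
  have bK : Body K := ⟨hK, hc, hne⟩
  set a : Fin (n + 1) → ℝ := fun j =>
    (⌊sInf ((fun y : EuclideanSpace ℝ (Fin (n + 1)) => y j) '' K)⌋ : ℝ) with ha
  set b : Fin (n + 1) → ℝ := fun j =>
    (⌈sSup ((fun y : EuclideanSpace ℝ (Fin (n + 1)) => y j) '' K)⌉ : ℝ) with hb
  have e : latticeBox K = box a b := rfl
  have hsub : K ⊆ box a b := by
    intro x hx j
    have hcj : IsCompact ((fun y : EuclideanSpace ℝ (Fin (n + 1)) => y j) '' K) :=
      hK.image (by fun_prop)
    exact ⟨(Int.floor_le _).trans (csInf_le hcj.bddBelow ⟨x, hx, rfl⟩),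
      (le_csSup hcj.bddAbove ⟨x, hx, rfl⟩).trans (Int.le_ceil _)⟩
  have hle : ∀ i, a i ≤ b i := fun i => by
    obtain ⟨x, hx⟩ := hne
    exact (hsub hx i).1.trans (hsub hx i).2
  have h := main (n + 1) K bK a b hsub
  rw [latticeCount_eq, surfaceArea_eq hd bK, e, Nat.add_sub_cancel, sum_box hle,
    ← measureReal_def]
  linarith

end Pool.Agent.Results.MP_0139c6_co.Ehrhart
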